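import Mathlib

/-!
# Integrals of a finite group and the variety of all integrals

Let `G` be a finite group, `V = Var(G)` and let `W` be the variety of all groups `K` whose derived
subgroup `K'` lies in `V`.  If `G` is not trivial, then `Var(H) ≠ W` for every integral `H` of `G`,
finite or infinite (that is, for every group `H` with `H'` isomorphic to `G`).

Proof. Let `H' ≅ G` and let `e` be the order of the (finite) automorphism group of `H'`.  For every
`h ∈ H` the element `h ^ e` centralises `H'`; so `H` satisfies the law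
`⁅⁅x ^ e, y ^ e⁆, z ^ e⁆ = 1`.  The unrestricted wreath product `K` of `G` by an infinite cyclic
group does not satisfy this law, while `K'` is contained in a direct power of `G`.
-/

set_option autoImplicit false

namespace Pool.Agent.Results.MP_4ce577_al.NoIntegralGeneratesW

universe u v

open scoped commutatorElement

/-- The word `w` is a law of the group `G`. -/
def IsLaw (w : FreeGroup ℕ) (G : Type u) [Group G] : Prop :=
  ∀ f : FreeGroup ℕ →* G, f w = 1

/-- The group `K` belongs to `Var(G)`, the variety generated by the group `G`: every law of `G` is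
a law of `K`. -/
def InVar (G : Type u) [Group G] (K : Type v) [Group K] : Prop :=
  ∀ w : FreeGroup ℕ, IsLaw w G → IsLaw w K

/-- The group `H` is an integral of the group `G`: the derived subgroup of `H` is isomorphic to
`G`. -/
def IsIntegral (H : Type v) [Group H] (G : Type u) [Group G] : Prop :=
  Nonempty (commutator H ≃* G)

/-! ### a law of all integrals -/

/-- the law `⁅⁅x ^ e, y ^ e⁆, z ^ e⁆` -/
def wd (e : ℕ) : FreeGroup ℕ :=
  ⁅⁅FreeGroup.of 0 ^ e, FreeGroup.of 1 ^ e⁆, FreeGroup.of 2 ^ e⁆

theorem law_of_finite (H : Type v) [Group H] [Finite (commutator H)] :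
    ∃ e : ℕ, 0 < e ∧ IsLaw (wd e) H := by
  have hfin : Finite (MulAut (commutator H)) := by
    refine Finite.of_injective (β := commutator H → commutator H) (fun σ => σ) ?_
    intro σ τ h
    exact MulEquiv.ext (congrFun h)
  refine ⟨Nat.card (MulAut (commutator H)), Nat.card_pos, ?_⟩
  intro f
  have h1 : ∀ h : H, ∀ n ∈ commutator H, n * h ^ Nat.card (MulAut (commutator H)) =
      h ^ Nat.card (MulAut (commutator H)) * n := by
    intro h n hn
    have h2 : (MulAut.conjNormal (H := commutator H) h) ^ Nat.card (MulAut (commutator H)) = 1 :=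
      pow_card_eq_one'
    rw [← map_pow] at h2
    have h3 := congrArg (fun σ : MulAut (commutator H) => ((σ ⟨n, hn⟩ : commutator H) : H)) h2
    simp only [MulAut.conjNormal_apply, MulAut.one_apply] at h3
    rw [mul_inv_eq_iff_eq_mul] at h3
    exact h3.symm
  unfold wd
  rw [map_commutatorElement, map_commutatorElement, map_pow, map_pow, map_pow,
    commutatorElement_eq_one_iff_mul_comm]
  exact h1 _ _ (Subgroup.commutator_mem_commutator (Subgroup.mem_top _) (Subgroup.mem_top _))

/-! ### the unrestricted wreath product with an infinite cyclic group -/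

/-- the unrestricted wreath product of `G` by an infinite cyclic group -/
@[ext] structure Wr (G : Type u) : Type u where
  /-- the component in the base group -/
  f : ℤ → G
  /-- the component in the infinite cyclic group -/
  n : ℤ

variable {G : Type u} [Group G]

instance : Mul (Wr G) := ⟨fun x y => ⟨fun m => x.f m * y.f (m - x.n), x.n + y.n⟩⟩

instance : One (Wr G) := ⟨⟨fun _ => 1, 0⟩⟩

instance : Inv (Wr G) := ⟨fun x => ⟨fun m => (x.f (m + x.n))⁻¹, -x.n⟩⟩

theorem wr_mul (x y : Wr G) : x * y = ⟨fun m => x.f m * y.f (m - x.n), x.n + y.n⟩ := rfl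

theorem wr_one : (1 : Wr G) = ⟨fun _ => 1, 0⟩ := rfl

theorem wr_inv (x : Wr G) : x⁻¹ = ⟨fun m => (x.f (m + x.n))⁻¹, -x.n⟩ := rfl

instance : Group (Wr G) :=
  Group.ofLeftAxioms
    (fun x y z => by
      simp only [wr_mul, Wr.mk.injEq]
      refine ⟨?_, by ring⟩
      funext m
      rw [mul_assoc, sub_sub])
    (fun x => by
      simp only [wr_mul, wr_one]
      ext <;> simp)
    (fun x => by
      simp only [wr_mul, wr_one, wr_inv, Wr.mk.injEq]
      refine ⟨?_, by ring⟩
      funext m
      rw [sub_neg_eq_add, inv_mul_cancel])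

theorem n_of_mem (x : Wr G) (hx : x ∈ commutator (Wr G)) : x.n = 0 := by
  let q : Wr G →* Multiplicative ℤ :=
    { toFun := fun x => Multiplicative.ofAdd x.n
      map_one' := rfl
      map_mul' := fun x y => rfl }
  have h1 : x ∈ q.ker := Abelianization.commutator_subset_ker q hx
  exact h1

/-- the derived subgroup of the wreath product lies in the variety generated by `G` -/
theorem inVar_commutator : InVar G (commutator (Wr G)) := by
  intro w hw f
  have h1 : ∀ m : ℤ, ((f w : Wr G)).f m = 1 := by
    intro m
    let q : commutator (Wr G) →* G :=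
      { toFun := fun x => (x : Wr G).f m
        map_one' := rfl
        map_mul' := by
          intro x y
          change (x : Wr G).f m * (y : Wr G).f (m - (x : Wr G).n) = _
          rw [n_of_mem _ x.2, sub_zero] }
    exact hw (q.comp f)
  apply Subtype.ext
  apply Wr.ext
  · funext m
    exact h1 m
  · exact n_of_mem _ (f w).2

theorem t_pow (e : ℕ) : (⟨fun _ => 1, 1⟩ : Wr G) ^ e = ⟨fun _ => 1, e⟩ := by
  induction e with
  | zero => rfl
  | succ e ih =>
    rw [pow_succ, ih, wr_mul]
    ext
    · simp
    · simp

/-- the wreath product violates the law -/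
theorem not_law [Nontrivial G] (e : ℕ) (he : 0 < e) : ¬ IsLaw (wd e) (Wr G) := by
  intro h
  obtain ⟨g, hg⟩ := exists_ne (1 : G)
  let a : ℤ → G := fun m => if m = 0 then g else 1
  let A : Wr G := ⟨a, 0⟩
  let t : Wr G := ⟨fun _ => 1, 1⟩
  have h1 := h (FreeGroup.lift fun n : ℕ => if n = 0 then A * t * A⁻¹ else t)
  unfold wd at h1
  rw [map_commutatorElement, map_commutatorElement, map_pow, map_pow, map_pow,
    FreeGroup.lift_apply_of, FreeGroup.lift_apply_of, FreeGroup.lift_apply_of] at h1
  simp only [if_true, one_ne_zero, if_false, OfNat.ofNat_ne_zero] at h1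
  have h2 : (A * t * A⁻¹) ^ e = A * ⟨fun _ => 1, e⟩ * A⁻¹ := by
    rw [conj_pow, t_pow]
  rw [h2, t_pow] at h1
  have h3 := congrArg (fun x : Wr G => x.f 0) h1
  have he' : (e : ℤ) ≠ 0 := by exact_mod_cast he.ne'
  simp only [commutatorElement_def, wr_mul, wr_inv, wr_one, A, a] at h3
  split_ifs at h3
  all_goals first | omega | (simp at h3; exact hg h3)

/-- a finite group with an integral -/
theorem perm3 : Nontrivial (commutator (Equiv.Perm (Fin 3))) := by
  refine ⟨⟨1, ⟨⁅(Equiv.swap 0 1 : Equiv.Perm (Fin 3)), (Equiv.swap 1 2 : Equiv.Perm (Fin 3))⁆,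
    Subgroup.commutator_mem_commutator (Subgroup.mem_top _) (Subgroup.mem_top _)⟩, ?_⟩⟩
  intro h
  have h1 := congrArg Subtype.val h
  have h2 : (1 : Equiv.Perm (Fin 3)) ≠
      ⁅(Equiv.swap 0 1 : Equiv.Perm (Fin 3)), (Equiv.swap 1 2 : Equiv.Perm (Fin 3))⁆ := by decide
  exact h2 h1

/-- **No integral of a nontrivial finite group generates the variety of all integrals.**
(1) For every nontrivial finite group `G` and every integral `H` of `G` (finite or infinite) there
is a group `K` whose derived subgroup lies in `Var(G)` but which does not lie in `Var(H)`.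
(2) In particular there is a finite integrable group `G` such that for every integral `H` of `G` the
variety `Var(H)` is different from the class of all groups `K` with `K' ∈ Var(G)`. -/
theorem result :
    (∀ (G : Type u) [Group G] [Finite G] [Nontrivial G] (H : Type v) [Group H], IsIntegral H G →
      ∃ (K : Type u) (_ : Group K), InVar G (commutator K) ∧ ¬ InVar H K) ∧
    ∃ (G : Type) (_ : Group G), Finite G ∧ (∃ (H : Type) (_ : Group H), IsIntegral H G) ∧
      ∀ (H : Type) [Group H], IsIntegral H G →
        ¬ ∀ (K : Type) [Group K], InVar H K ↔ InVar G (commutator K) := by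
  have key : ∀ (G : Type u) [Group G] [Finite G] [Nontrivial G] (H : Type v) [Group H],
      IsIntegral H G → ∃ (K : Type u) (_ : Group K), InVar G (commutator K) ∧ ¬ InVar H K := by
    intro G _ _ _ H _ hH
    obtain ⟨e⟩ := hH
    have : Finite (commutator H) := Finite.of_equiv G e.symm.toEquiv
    obtain ⟨n, hn, hl⟩ := law_of_finite H
    exact ⟨Wr G, inferInstance, inVar_commutator, fun h => not_law n hn (h _ hl)⟩
  have key0 : ∀ (G : Type) [Group G] [Finite G] [Nontrivial G] (H : Type) [Group H],
      IsIntegral H G → ∃ (K : Type) (_ : Group K), InVar G (commutator K) ∧ ¬ InVar H K := by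
    intro G _ _ _ H _ hH
    obtain ⟨e⟩ := hH
    have : Finite (commutator H) := Finite.of_equiv G e.symm.toEquiv
    obtain ⟨n, hn, hl⟩ := law_of_finite H
    exact ⟨Wr G, inferInstance, inVar_commutator, fun h => not_law n hn (h _ hl)⟩
  refine ⟨key, commutator (Equiv.Perm (Fin 3)), inferInstance, inferInstance,
    ⟨Equiv.Perm (Fin 3), inferInstance, ⟨MulEquiv.refl _⟩⟩, ?_⟩
  intro H _ hH hK
  have := perm3
  obtain ⟨K, _, h1, h2⟩ := key0 (commutator (Equiv.Perm (Fin 3))) H hH
  exact h2 ((hK K).2 h1)

end Pool.Agent.Results.MP_4ce577_al.NoIntegralGeneratesW
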